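import Pool.Agent.N455.PR.OneQ

/-!
# Formulas with algebraic witnesses (helper455)
-/

set_option autoImplicit false
set_option linter.unusedSectionVars false

namespace Pool.Agent.N455.PR

open Polynomial
open Pool.Agent.TH783.CE (Thin Flat Thin.mono Thin.of_finite Thin.union Thin.biUnion)

variable {K : Type} [Field K] [CharZero K]

/-- the numerator of a polynomial at a vector of rational functions -/
theorem num_ex {σ : Type} (c : K[X]) (h : σ → K[X]) (f : MvPolynomial σ K) :
    ∃ (N : ℕ) (R : K[X]), ∀ a : K, c.eval a ≠ 0 →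
      R.eval a = c.eval a ^ N * MvPolynomial.eval (fun i => (h i).eval a / c.eval a) f := by
  induction f using MvPolynomial.induction_on with
  | C r => exact ⟨0, C r, fun a _ => by simp⟩
  | add p q hp hq =>
    obtain ⟨N₁, R₁, h₁⟩ := hp
    obtain ⟨N₂, R₂, h₂⟩ := hq
    refine ⟨N₁ + N₂, R₁ * c ^ N₂ + R₂ * c ^ N₁, fun a ha => ?_⟩
    rw [eval_add, eval_mul, eval_mul, eval_pow, eval_pow, h₁ a ha, h₂ a ha, map_add]
    ring
  | mul_X p i hp =>
    obtain ⟨N, R, h₁⟩ := hp
    refine ⟨N + 1, R * h i, fun a ha => ?_⟩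
    rw [eval_mul, h₁ a ha, map_mul, MvPolynomial.eval_X]
    field_simp
    ring

/-- the rational curve `a ↦ (a, b, h(a) / c(a))` -/
noncomputable def crv {n : ℕ} (b : K) (c : K[X]) (h : Fin n → K[X]) : Fin 2 ⊕ Fin n → K[X] :=
  Sum.elim ![X * c, C b * c] h

theorem eval_crv {n : ℕ} (b : K) (c : K[X]) (h : Fin n → K[X]) (a : K) (ha : c.eval a ≠ 0) :
    (fun i => (crv b c h i).eval a / c.eval a) =
      Sum.elim ![a, b] (fun i => (h i).eval a / c.eval a) := by
  funext i
  rcases i with i | i
  · fin_cases i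
    · simp [crv, ha]
    · simp [crv, ha]
  · simp [crv]

/-- A Boolean combination of polynomial equations holds at finitely many or at all but finitely many
points of a rational curve. -/
theorem tame_crv {n s : ℕ} (f : Fin s → MvPolynomial (Fin 2 ⊕ Fin n) K)
    (B : (Fin s → Prop) → Prop) (b : K) (c : K[X]) (hc : c ≠ 0) (h : Fin n → K[X]) :
    {a | c.eval a ≠ 0 ∧ B (fun i => MvPolynomial.eval (Sum.elim ![a, b]
      (fun i => (h i).eval a / c.eval a)) (f i) = 0)}.Finite ∨
    {a | ¬ (c.eval a ≠ 0 ∧ B (fun i => MvPolynomial.eval (Sum.elim ![a, b]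
      (fun i => (h i).eval a / c.eval a)) (f i) = 0))}.Finite := by
  classical
  have hroots : ∀ q : K[X], q ≠ 0 → {a | q.eval a = 0}.Finite := by
    intro q hq
    refine (q.roots.toFinset.finite_toSet).subset fun a ha => ?_
    rw [Finset.mem_coe, Multiset.mem_toFinset]
    exact (mem_roots hq).2 ha
  choose N R hR using fun i => num_ex c (crv b c h) (f i)
  set A : Set K := {a | c.eval a = 0} ∪ ⋃ i : Fin s, {a | R i ≠ 0 ∧ (R i).eval a = 0} with hA
  have hAfin : A.Finite := by
    refine (hroots c hc).union (Set.finite_iUnion fun i => ?_)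
    by_cases h0 : R i = 0
    · have : {a | R i ≠ 0 ∧ (R i).eval a = 0} = ∅ := by
        ext a
        simp [h0]
      rw [this]
      exact Set.finite_empty
    · exact (hroots _ h0).subset fun a ha => ha.2
  have hconst : ∀ a, a ∉ A → ((fun i => MvPolynomial.eval (Sum.elim ![a, b]
      (fun i => (h i).eval a / c.eval a)) (f i) = 0) = fun i => R i = 0) := by
    intro a ha
    have hca : c.eval a ≠ 0 := fun h0 => ha (Or.inl h0)
    funext i
    have h1 := hR i a hca
    rw [eval_crv b c h a hca] at h1
    refine propext ⟨fun hi => ?_, fun hi => ?_⟩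
    · by_contra h0
      apply ha
      right
      refine Set.mem_iUnion.2 ⟨i, h0, ?_⟩
      rw [h1, hi, mul_zero]
    · rw [hi, eval_zero] at h1
      exact (mul_eq_zero.1 h1.symm).resolve_left (pow_ne_zero _ hca)
  by_cases hB : B (fun i => R i = 0)
  · right
    refine hAfin.subset fun a ha => ?_
    by_contra haA
    apply ha
    refine ⟨fun h0 => haA (Or.inl h0), ?_⟩
    rw [hconst a haA]
    exact hB
  · left
    refine hAfin.subset fun a ha => ?_
    by_contra haA
    apply hB
    rw [← hconst a haA]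
    exact ha.2

/-- **Formulas with algebraic witnesses.** -/
theorem thin_alg {O : Set K} (hO : Flat O) {n s : ℕ} (f : Fin s → MvPolynomial (Fin 2 ⊕ Fin n) K)
    (B : (Fin s → Prop) → Prop) (b : K) (G : Fin n → K[X][X]) (hG0 : ∀ i, G i ≠ 0)
    (hG : ∀ (a : K) (w : Fin n → K),
      B (fun i => MvPolynomial.eval (Sum.elim ![a, b] w) (f i) = 0) →
      ∀ i, (G i).evalEval a (w i) = 0)
    (h : ∀ (a : K) (w : Fin n → K),
      B (fun i => MvPolynomial.eval (Sum.elim ![a, b] w) (f i) = 0) → a ∈ O) :
    Thin {a | ∃ w : Fin n → K, B (fun i => MvPolynomial.eval (Sum.elim ![a, b] w) (f i) = 0)} := by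
  classical
  have hroots : ∀ q : K[X], q ≠ 0 → {a | q.eval a = 0}.Finite := by
    intro q hq
    refine (q.roots.toFinset.finite_toSet).subset fun a ha => ?_
    rw [Finset.mem_coe, Multiset.mem_toFinset]
    exact (mem_roots hq).2 ha
  -- monic polynomials
  have hI : ∀ i, ∃ I : K[X][X], I.Monic ∧ ∀ a w, (G i).leadingCoeff.eval a ≠ 0 →
      (G i).evalEval a w = 0 → I.evalEval a ((G i).leadingCoeff.eval a * w) = 0 := by
    intro i
    by_cases hd : 1 ≤ (G i).natDegree
    · refine ⟨integralNormalization (G i), monic_integralNormalization (hG0 i), fun a w ha hw => ?_⟩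
      have h1 := integralNormalization_eval₂_leadingCoeff_mul hd (evalRingHom a) w
      rw [eval₂_evalRingHom] at h1
      rw [coe_evalRingHom] at h1
      rw [h1, hw, mul_zero]
    · have hd0 : (G i).natDegree = 0 := by omega
      refine ⟨1, monic_one, fun a w ha hw => ?_⟩
      exfalso
      apply ha
      rw [← map_evalRingHom_eval, eval_map, eval₂_eq_sum_range, hd0] at hw
      simpa [leadingCoeff, hd0] using hw
  choose I hIm hI using hI
  choose H hH1 hH2 hH3 using fun i => exists_prod_multiset_X_sub_C_mul (I i)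
  have hHm : ∀ i, (H i).Monic := by
    intro i
    have h1 : (Multiset.map (fun a => X - C a) (I i).roots).prod.Monic :=
      monic_multiset_prod_of_monic _ _ fun a _ => monic_X_sub_C a
    exact h1.of_mul_monic_left (by rw [hH1 i]; exact hIm i)
  have hm : (∏ i, H i).Monic := monic_prod_of_monic _ _ fun i _ => hHm i
  have hr : ∀ g : K[X], (∏ i, H i).eval g ≠ 0 := by
    intro g
    rw [eval_prod]
    refine Finset.prod_ne_zero_iff.2 fun i _ h => ?_
    have : g ∈ (H i).roots := (mem_roots (hHm i).ne_zero).2 h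
    rw [hH3 i] at this
    simp at this
  set c : K[X] := ∏ i, (G i).leadingCoeff with hc
  have hc0 : c ≠ 0 := Finset.prod_ne_zero_iff.2 fun i _ => leadingCoeff_ne_zero.2 (hG0 i)
  -- the curves
  let hh : (∀ i : Fin n, {g // g ∈ (I i).roots.toFinset}) → Fin n → K[X] := fun j i =>
    (j i).1 * ∏ l ∈ Finset.univ.erase i, (G l).leadingCoeff
  have hfin : (⋃ j : (∀ i : Fin n, {g // g ∈ (I i).roots.toFinset}),
      {a | c.eval a ≠ 0 ∧ B (fun i => MvPolynomial.eval (Sum.elim ![a, b]
        (fun i => (hh j i).eval a / c.eval a)) (f i) = 0)}).Finite := by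
    refine Set.finite_iUnion fun j => ?_
    rcases tame_crv f B b c hc0 (hh j) with h1 | h1
    · exact h1
    · exfalso
      refine not_cofinite hO _ h1 fun a ha => ?_
      have ha' := not_not.1 ha
      exact h a _ ha'.2
  refine (((Thin.of_finite (hroots c hc0)).union (Thin.of_finite hfin)).union
    ⟨∅, Set.finite_empty, ∏ i, H i, hm, hr, fun t ht => Or.inr ht⟩).mono
    (D' := {a | ∃ w : Fin n → K, B (fun i => MvPolynomial.eval (Sum.elim ![a, b] w) (f i) = 0)}) ?_
  rintro a ⟨w, hw⟩
  by_cases hca : c.eval a = 0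
  · exact Or.inl (Or.inl hca)
  have hci : ∀ i, (G i).leadingCoeff.eval a ≠ 0 := by
    intro i h0
    apply hca
    rw [hc, eval_prod]
    exact Finset.prod_eq_zero (Finset.mem_univ i) h0
  by_cases hex : ∃ y : K, (∏ i, H i).evalEval a y = 0
  · exact Or.inr hex
  left
  right
  push Not at hex
  have hj : ∀ i : Fin n, ∃ g : {g // g ∈ (I i).roots.toFinset},
      (G i).leadingCoeff.eval a * w i = g.1.eval a := by
    intro i
    have h1 := hI i a (w i) (hci i) (hG a w hw i)
    rw [← hH1 i, evalEval_mul] at h1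
    have h2 : (H i).evalEval a ((G i).leadingCoeff.eval a * w i) ≠ 0 := by
      intro h0
      apply hex ((G i).leadingCoeff.eval a * w i)
      rw [evalEval_prod]
      exact Finset.prod_eq_zero (Finset.mem_univ i) h0
    have h3 := (mul_eq_zero.1 h1).resolve_right h2
    rw [← coe_evalEvalRingHom, map_multiset_prod, Multiset.map_map] at h3
    rw [Multiset.prod_eq_zero_iff, Multiset.mem_map] at h3
    obtain ⟨g, hg, hg'⟩ := h3
    refine ⟨⟨g, Multiset.mem_toFinset.2 hg⟩, ?_⟩
    simp only [Function.comp_apply, coe_evalEvalRingHom] at hg'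
    have h4 : evalEval a ((G i).leadingCoeff.eval a * w i) (X - C g) =
        (G i).leadingCoeff.eval a * w i - g.eval a := by
      simp [evalEval]
    rw [h4] at hg'
    exact sub_eq_zero.1 hg'
  choose j hj using hj
  refine Set.mem_iUnion.2 ⟨j, hca, ?_⟩
  have hw' : (fun i => (hh j i).eval a / c.eval a) = w := by
    funext i
    show ((j i).1 * ∏ l ∈ Finset.univ.erase i, (G l).leadingCoeff).eval a / c.eval a = w i
    rw [div_eq_iff hca, eval_mul, ← hj i, hc, ← Finset.mul_prod_erase _ _ (Finset.mem_univ i),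
      eval_mul]
    ring
  rw [hw']
  exact hw

end Pool.Agent.N455.PR
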