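import Pool.Agent.TH783.CE.NF
import Pool.Agent.TH766.HP.Defs
import Pool.Agent.N455.PR.Alg

/-!
# Removing the primes below the poles of `b` (helper455)
-/

set_option autoImplicit false

namespace Pool.Agent.N455.PR

open Polynomial NumberField IsDedekindDomain
open Pool.Agent.TH766.HP (Rich)
open Pool.Agent.TH783.CE (Thin Flat NoPole)

/-- `b` has no pole above the large primes -/
theorem exists_bound {K : Type} [Field K] [NumberField K] (b : K) : ∃ N : ℕ, ∀ p : ℕ, p.Prime →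
    N < p → ∀ v : HeightOneSpectrum (𝓞 K), ((p : 𝓞 K) ∈ v.asIdeal) → v.valuation K b ≤ 1 := by
  obtain ⟨m, hm0, hm⟩ : ∃ m : ℤ, m ≠ 0 ∧ IsIntegral ℤ ((m : ℤ) • b) := by
    obtain ⟨m, hm0, hm⟩ := exists_integral_multiples ℤ ℚ ({b} : Finset K)
    exact ⟨m, hm0, hm b (Finset.mem_singleton_self b)⟩
  refine ⟨m.natAbs, fun p hp hNp v hv => ?_⟩
  obtain ⟨z, hz⟩ : ∃ z : 𝓞 K, algebraMap (𝓞 K) K z = (m : ℤ) • b := ⟨⟨(m : ℤ) • b, hm⟩, rfl⟩
  have h1 : v.valuation K (algebraMap (𝓞 K) K z) ≤ 1 := v.valuation_le_one (K := K) z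
  have h2 : algebraMap (𝓞 K) K z = (m : K) * b := by
    rw [hz, zsmul_eq_mul]
  rw [h2, map_mul] at h1
  have h3 : v.valuation K (m : K) = 1 := by
    have h4 : (m : K) = algebraMap (𝓞 K) K (m : 𝓞 K) := by simp
    rw [h4]
    refine (HeightOneSpectrum.valuation_eq_one_iff_notMem (K := K) v).2 ?_
    intro hmv
    -- `1` is in the ideal
    have hcop : IsCoprime (m : ℤ) (p : ℤ) := by
      rw [Int.isCoprime_iff_nat_coprime, Int.natAbs_natCast]
      refine ((Nat.Prime.coprime_iff_not_dvd hp).2 fun hdvd => ?_).symm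
      have := Nat.le_of_dvd (Int.natAbs_pos.2 hm0) hdvd
      omega
    obtain ⟨x, y, hxy⟩ := hcop
    apply v.isPrime.ne_top
    rw [Ideal.eq_top_iff_one]
    have h5 : (1 : 𝓞 K) = (x : 𝓞 K) * (m : 𝓞 K) + (y : 𝓞 K) * ((p : ℕ) : 𝓞 K) := by
      have := congrArg (fun z : ℤ => (z : 𝓞 K)) hxy
      push_cast at this
      exact this.symm
    rw [h5]
    exact v.asIdeal.add_mem (v.asIdeal.mul_mem_left _ hmv) (v.asIdeal.mul_mem_left _ hv)
  rw [h3, one_mul] at h1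
  exact h1

/-- A rich set of primes without the primes below the poles of `b`. -/
theorem rich_sub {K : Type} [Field K] [NumberField K] {Q : Set ℕ} (hQ : Rich Q) (b : K) :
    ∃ Q' : Set ℕ, Q' ⊆ Q ∧ Rich Q' ∧ b ∈ NoPole K Q' := by
  obtain ⟨N, hN⟩ := exists_bound b
  refine ⟨{p | p ∈ Q ∧ N < p}, fun p hp => hp.1, ?_, ?_⟩
  · intro s M hs
    obtain ⟨p, hp, h1, h2, h3⟩ := hQ s (max M N) hs
    exact ⟨p, hp, ⟨h1, (le_max_right _ _).trans_lt h2⟩, (le_max_left _ _).trans_lt h2, h3⟩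
  · rintro v ⟨p, hp, hpQ, hpv⟩
    exact hN p hp hpQ.2 v hpv

end Pool.Agent.N455.PR
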