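import Pool.Agent.N455.PR.Rat
import Pool.Agent.TH783.CE.Thin
import Pool.Agent.N938.TD.One

/-!
# One null set for all thin sets of all number fields (helper455)
-/

set_option autoImplicit false

namespace Pool.Agent.N455.PR

open Polynomial Filter Topology
open Pool.Agent.N666.TM (NullIn)
open Pool.Agent.N455.HT
open Pool.Agent.TH783.CE (Thin)

/-- polynomials in one variable -/
noncomputable def e1 : ℤ[X] →+* MvPolynomial Unit ℤ :=
  ((MvPolynomial.uniqueAlgEquiv ℤ Unit).symm : ℤ[X] ≃ₐ[ℤ] MvPolynomial Unit ℤ).toRingEquiv.toRingHom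

theorem e1_bij : Function.Bijective e1 := (MvPolynomial.uniqueAlgEquiv ℤ Unit).symm.bijective

theorem ev_e1 (t : ℤ) : (ev (fun _ : Unit => t)).comp e1 = evalRingHom t := by
  refine Polynomial.ringHom_ext (fun n => ?_) ?_
  · have : ((ev (fun _ : Unit => t)).comp e1).comp C = (evalRingHom t).comp C :=
      RingHom.ext_int _ _
    exact RingHom.congr_fun this n
  · rw [RingHom.comp_apply]
    have h : e1 X = MvPolynomial.X () := by
      unfold e1
      simp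
    rw [h, ev_X]
    simp

theorem null_int {S : ℕ → Finset ℕ} {v : ℕ → ℤ} (hw : WS S (fun n (_ : Unit) => v n))
    (F : ℤ[X][X]) (hF : F.Monic) (hroot : ∀ g, F.eval g ≠ 0) :
    NullIn S {n | ∃ a : ℤ, (F.map (evalRingHom (v n))).eval a = 0} := by
  have h := hit_monic hw _ (F.map e1) rfl (hF.map _) (by
    intro a ha
    obtain ⟨b, rfl⟩ := e1_bij.2 a
    rw [eval_map_apply] at ha
    exact hroot b (e1_bij.1 (by rw [ha, map_zero])))
  refine NullIn.mono' h ?_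
  rintro n ⟨a, ha⟩
  refine ⟨a, ?_⟩
  unfold IsRt
  rw [Polynomial.map_map, ev_e1]
  exact ha

theorem null_rat {S : ℕ → Finset ℕ} {v : ℕ → ℤ} (hw : WS S (fun n (_ : Unit) => v n))
    (f : ℚ[X][X]) (hf : f.Monic) (hroot : ∀ g, f.eval g ≠ 0) :
    NullIn S {n | ∃ x : ℚ, f.evalEval ((v n : ℤ) : ℚ) x = 0} := by
  obtain ⟨F, hF, hFr, h⟩ := rat_to_int f hf hroot
  refine NullIn.mono' (null_int hw F hF hFr) ?_
  rintro n ⟨x, hx⟩
  exact h (v n) x hx

theorem null_val {S : ℕ → Finset ℕ} {v : ℕ → ℤ} (hw : WS S (fun n (_ : Unit) => v n)) (m : ℤ) :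
    NullIn S {n | v n = m} := by
  have h := zero_null hw (t := (MvPolynomial.X () - MvPolynomial.C m : MvPolynomial Unit ℤ)) (by
    intro h0
    have := congrArg (MvPolynomial.eval fun _ => m + 1) h0
    simp at this)
  refine NullIn.mono' h ?_
  intro n hn
  have hn' : v n = m := hn
  show ev (fun _ : Unit => v n) (MvPolynomial.X () - MvPolynomial.C m) = 0
  rw [map_sub, ev_X, hn']
  unfold ev
  simp

/-- **One null set for all thin sets.** -/
theorem thin_all {S₁ S₂ : ℕ → Finset ℕ} (hS₁ : ∀ N, S₁ N ⊆ Finset.Ioc N (2 * N))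
    (hS₂ : ∀ N, S₂ N ⊆ Finset.Ioc N (2 * N)) {v : ℕ → ℕ → ℤ}
    (h₁ : ∀ j, WS S₁ (fun n (_ : Unit) => v j n)) (h₂ : ∀ j, WS S₂ (fun n (_ : Unit) => v j n)) :
    ∃ E : Set ℕ, NullIn S₁ E ∧ NullIn S₂ E ∧
      ∀ (j : ℕ) (K : Type) [Field K] [NumberField K] (D : Set K), Thin D →
        {n | n ∉ E ∧ ((v j n : ℤ) : K) ∈ D}.Finite := by
  classical
  let bad : ℕ × (ℚ[X][X] ⊕ ℤ) → Set ℕ := fun q => Sum.elim
    (fun f : ℚ[X][X] => {n | (f.Monic ∧ ∀ g, f.eval g ≠ 0) ∧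
      ∃ x : ℚ, f.evalEval ((v q.1 n : ℤ) : ℚ) x = 0})
    (fun m : ℤ => {n | v q.1 n = m}) q.2
  have hc1 : Countable ℚ[X] := by
    rw [← Cardinal.mk_le_aleph0_iff]
    exact Polynomial.cardinalMk_le_max.trans (by simp)
  have hc2 : Countable ℚ[X][X] := by
    rw [← Cardinal.mk_le_aleph0_iff]
    exact Polynomial.cardinalMk_le_max.trans (by simp)
  have key : ∀ {S : ℕ → Finset ℕ}, (∀ j, WS S (fun n (_ : Unit) => v j n)) →
      ∀ q, NullIn S (bad q) := by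
    intro S hS q
    obtain ⟨j, f | m⟩ := q
    · by_cases hf : f.Monic ∧ ∀ g, f.eval g ≠ 0
      · exact NullIn.mono' (null_rat (hS j) f hf.1 hf.2) fun n hn => hn.2
      · exact NullIn.mono' NullIn.empty' fun n hn => absurd hn.1 hf
    · exact null_val (hS j) m
  obtain ⟨E, hE1, hE2, hE⟩ := Pool.Agent.N938.TD.diagC hS₁ hS₂ (key h₁) (key h₂)
  refine ⟨E, hE1, hE2, fun j K _ _ D hD => ?_⟩
  obtain ⟨A, hA, G, hG, hroot, hcov⟩ := hD
  obtain ⟨H, hH, hHr, F, hF, hF'⟩ := nf_to_rat K G hG hroot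
  have hA' : {m : ℤ | (m : K) ∈ A}.Finite := hA.preimage Int.cast_injective.injOn
  have hfin : ((⋃ m ∈ {m : ℤ | (m : K) ∈ A} ∪ F, {n | n ∉ E ∧ n ∈ bad (j, Sum.inr m)}) ∪
      {n | n ∉ E ∧ n ∈ bad (j, Sum.inl H)}).Finite :=
    ((hA'.union hF).biUnion fun m _ => hE (j, Sum.inr m)).union (hE (j, Sum.inl H))
  refine hfin.subset ?_
  rintro n ⟨hn, hnD⟩
  rcases hcov _ hnD with h | ⟨x, hx⟩
  · left
    exact Set.mem_biUnion (Or.inl h) ⟨hn, rfl⟩
  · rcases hF' (v j n) x hx with h | ⟨y, hy⟩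
    · left
      exact Set.mem_biUnion (Or.inr h) ⟨hn, rfl⟩
    · right
      exact ⟨hn, ⟨hH, hHr⟩, y, hy⟩

end Pool.Agent.N455.PR
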