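import Pool.Agent.N455.PR.Den
import Pool.Agent.N455.PR.Null
import Pool.Agent.Results.MP_a59382_lc.RankFive

/-!
# Sound formulas define thin sets (helper455)
-/

set_option autoImplicit false

namespace Pool.Agent.N455.PR

open MvPolynomial
open Pool.Agent.TH766.HP Pool.Agent.TH783.CE
open Pool.Agent.Results.MP_a59382_lc.CubicEquations (PoleRel)
open Pool.Agent.Results.MP_a59382_lc
open Pool.Agent.Results.MP_a59382_lc.QuadraticFamilies (Union)
open Pool.Agent.Results.MP_a59382_lc.UnirationalFibres (Block)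
open Pool.Agent.R565.QR (spec Solvable)

variable {K : Type} [Field K]

/-- one quantifier: polynomials in `a` and `w` -/
noncomputable def conv (b : K) : MvPolynomial (Fin 2 ⊕ Fin 1) K →+* Polynomial (Polynomial K) :=
  eval₂Hom (Polynomial.C.comp Polynomial.C) (Sum.elim
    ![Polynomial.C Polynomial.X, Polynomial.C (Polynomial.C b)] fun _ => Polynomial.X)

theorem eval_conv (b a w : K) (f : MvPolynomial (Fin 2 ⊕ Fin 1) K) :
    (conv b f).evalEval a w = eval (Sum.elim ![a, b] fun _ => w) f := by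
  have h : (Polynomial.evalEvalRingHom a w).comp (conv b) =
      eval (Sum.elim ![a, b] fun _ => w) := by
    refine MvPolynomial.ringHom_ext (fun r => ?_) (fun i => ?_)
    · simp [conv, Polynomial.evalEval]
    · rcases i with i | i
      · fin_cases i
        · simp [conv, Polynomial.evalEval]
        · simp [conv, Polynomial.evalEval]
      · simp [conv, Polynomial.evalEval]
  exact RingHom.congr_fun h f

/-- At most one quantifier, or witnesses which are algebraic over the field `K(a)`. -/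
def AlgWit {c s : ℕ} (F : Fin s → MvPolynomial (Fin 2 ⊕ Fin c) K) (B : (Fin s → Prop) → Prop)
    (b : K) : Prop :=
  c ≤ 1 ∨ ∀ l : Fin c, ∃ G : Polynomial (Polynomial K), G ≠ 0 ∧ ∀ (a : K) (w : Fin c → K),
    B (fun j => eval (Sum.elim ![a, b] w) (F j) = 0) → G.evalEval a (w l) = 0

theorem thin_algWit [CharZero K] {O : Set K} (hO : Flat O) {c s : ℕ}
    (F : Fin s → MvPolynomial (Fin 2 ⊕ Fin c) K) (B : (Fin s → Prop) → Prop) (b : K)
    (hA : AlgWit F B b)
    (h : ∀ (a : K) (w : Fin c → K), B (fun j => eval (Sum.elim ![a, b] w) (F j) = 0) → a ∈ O) :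
    Thin {a | ∃ w : Fin c → K, B (fun j => eval (Sum.elim ![a, b] w) (F j) = 0)} := by
  rcases hA with hc | hA
  · obtain rfl | rfl : c = 0 ∨ c = 1 := by omega
    · exact thin_alg hO F B b (fun l => l.elim0) (fun l => l.elim0) (fun _ _ _ l => l.elim0) h
    · have h1 := thin_oneQ hO (fun j => conv b (F j)) B (fun a w hw => by
        simp only [eval_conv] at hw
        exact h a (fun _ => w) hw)
      refine h1.mono ?_
      rintro a ⟨w, hw⟩
      refine ⟨w 0, ?_⟩
      simp only [eval_conv]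
      have : (fun _ : Fin 1 => w 0) = w := by
        funext i
        rw [Subsingleton.elim i 0]
      rw [this]
      exact hw
  · choose G hG0 hG using hA
    exact thin_alg hO F B b G hG0 (fun a w hw l => hG l a w hw) h

theorem noPole_of {K : Type} [Field K] [NumberField K] {Q : Set ℕ} {a b : K} (hb : b ∈ NoPole K Q)
    (h : PoleRel K Q a b) : a ∈ NoPole K Q := by
  intro v hv
  by_contra hcon
  exact absurd (h v hv (not_le.1 hcon)) (not_lt.2 (hb v hv))

theorem poleRel_mono {K : Type} [Field K] [NumberField K] {Q Q' : Set ℕ} (hQ : Q' ⊆ Q) {a b : K}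
    (h : PoleRel K Q a b) : PoleRel K Q' a b := by
  rintro v ⟨p, hp, hpQ, hpv⟩ ha
  exact h v ⟨p, hp, hQ hpQ, hpv⟩ ha

theorem poleRel_int {K : Type} [Field K] [NumberField K] (Q : Set ℕ) (m : ℤ) (b : K) :
    PoleRel K Q (m : K) b := by
  intro v _ hv
  exfalso
  have h1 : v.valuation K ((m : NumberField.RingOfIntegers K) : K) ≤ 1 :=
    v.valuation_le_one (K := K) (m : NumberField.RingOfIntegers K)
  have h2 : ((m : NumberField.RingOfIntegers K) : K) = (m : K) := by simp
  rw [h2] at h1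
  exact absurd hv (not_lt.2 h1)

/-- **Sound formulas define thin sets.** -/
theorem thin_main {K : Type} [Field K] [NumberField K] {Q : Set ℕ} (hQ : Rich Q)
    {k h l u : ℕ} {n : Fin k → ℕ} {m : Fin h → ℕ} {f : ∀ i, MvPolynomial (Fin 2 ⊕ Fin (n i)) K}
    {g : ∀ i, MvPolynomial (Fin 3 ⊕ Fin (m i)) K}
    (hf : ∀ i, ∀ e ∈ (f i).support, e (Sum.inl 0) + ∑ j, e (Sum.inr j) ≤ 3)
    (hg : ∀ i, ∀ e ∈ (g i).support, e (Sum.inl 0) + ∑ j, e (Sum.inr j) ≤ 2)
    {r : Fin l → ℕ} {d : ∀ i, Fin (r i) → ℕ} {S : ∀ i, K → ∀ j, Set (Fin (d i j + 1) → K)}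
    {p q : ∀ i, K → MvPolynomial ((j : Fin (r i)) × Fin (d i j + 1)) K}
    {c s : Fin u → ℕ} {F : ∀ i, Fin (s i) → MvPolynomial (Fin 2 ⊕ Fin (c i)) K}
    {B : ∀ i, (Fin (s i) → Prop) → Prop} (b : K) (hS : ∀ i j, Block (S i b j))
    (hF : ∀ i, AlgWit (F i) (B i) b)
    (hU : ∀ a : K, (Union f g S p q a b ∨ ∃ i, ∃ w : Fin (c i) → K,
      B i (fun j => eval (Sum.elim ![a, b] w) (F i j) = 0)) → PoleRel K Q a b) :
    Thin {a : K | Union f g S p q a b ∨ ∃ i, ∃ w : Fin (c i) → K,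
      B i (fun j => eval (Sum.elim ![a, b] w) (F i j) = 0)} := by
  obtain ⟨Q', hQQ, hQ', hb⟩ := rich_sub hQ b
  have h1 : Thin {a : K | Union f g S p q a b} :=
    (QuadraticFamilies.result.2.1 K Q' hQ' k h l n m f g hf hg r d S p q b hb hS
      fun a ha => poleRel_mono hQQ (hU a (Or.inl ha))).1
  have h2 : Thin (⋃ i ∈ (Set.univ : Set (Fin u)), {a : K | ∃ w : Fin (c i) → K,
      B i (fun j => eval (Sum.elim ![a, b] w) (F i j) = 0)}) := by
    refine Thin.biUnion Set.finite_univ fun i _ => ?_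
    exact thin_algWit (flat_noPole (K := K) hQ') (F i) (B i) b (hF i) fun a w hw =>
      noPole_of hb (poleRel_mono hQQ (hU a (Or.inr ⟨i, w, hw⟩)))
  refine (h1.union h2).mono ?_
  rintro a (ha | ⟨i, ha⟩)
  · exact Or.inl ha
  · exact Or.inr (Set.mem_biUnion (Set.mem_univ i) ha)

/-- Quadratic forms of rank at least five over `ℚ`. -/
theorem fin_rank5 {Q : Set ℕ} (hQ : Rich Q) {t : ℕ}
    {A : Matrix (Fin (t + 1)) (Fin (t + 1)) (MvPolynomial (Fin 2 ⊕ Fin 0) ℚ)} (hA : A.IsSymm)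
    (b : ℚ) (h5 : ∃ a, 5 ≤ (spec A a b Fin.elim0).rank)
    (hU : ∀ a : ℚ, Solvable A a b → PoleRel ℚ Q a b) : {a | Solvable A a b}.Finite := by
  obtain ⟨Q', hQQ, hQ', hb⟩ := rich_sub hQ b
  obtain ⟨p', hp', hpQ', -⟩ := hQ' ∅ 0 (by simp)
  exact RankFive.result.2.2.1 Q' ⟨p', hpQ', hp'.out⟩ t A hA b hb h5
    fun a ha => poleRel_mono hQQ (hU a ha)

end Pool.Agent.N455.PR
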