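import Pool.Agent.TH783.CE.Thin
import Pool.Agent.TH783.CE.Flat

/-!
# Formulas with one quantifier (helper455)
-/

set_option autoImplicit false
set_option linter.unusedSectionVars false

namespace Pool.Agent.N455.PR

open Polynomial
open Pool.Agent.TH783.CE (Thin Flat Thin.mono Thin.of_finite Thin.union)

variable {K : Type} [Field K] [CharZero K]

/-- a flat set is not cofinite -/
theorem not_cofinite {O : Set K} (hO : Flat O) (A : Set K) (hA : A.Finite)
    (h : ∀ a, a ∉ A → a ∈ O) : False := by
  classical
  let p : K[X] := ∏ a ∈ hA.toFinset, (X - C a)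
  have hp : p ≠ 0 := Finset.prod_ne_zero_iff.2 fun a _ => X_sub_C_ne_zero a
  obtain ⟨c, hc⟩ := hO p (X * p) hp (fun s hs => by
    rw [eval_mul, eval_X, mul_div_assoc, div_self hs, mul_one]
    refine h s fun hsA => hs ?_
    show (∏ a ∈ hA.toFinset, (X - C a)).eval s = 0
    rw [eval_prod]
    exact Finset.prod_eq_zero (hA.mem_toFinset.2 hsA) (by simp))
  have h1 : (X : K[X]) = C c := mul_right_cancel₀ hp hc
  have h2 := congrArg natDegree h1
  rw [natDegree_X, natDegree_C] at h2
  exact one_ne_zero h2

/-- Along the graph of a polynomial the condition `P` holds for finitely many or for all but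
finitely many parameters. -/
def Tame (P : K → K → Prop) : Prop :=
  ∀ h : K[X], {a | P a (h.eval a)}.Finite ∨ {a | ¬ P a (h.eval a)}.Finite

theorem thin_monic {O : Set K} (hO : Flat O) {P : K → K → Prop} (hP : Tame P) :
    ∀ (m : ℕ) (G : K[X][X]), G.Monic → G.natDegree = m →
      (∀ a y, G.evalEval a y = 0 → P a y → a ∈ O) →
      Thin {a | ∃ y, G.evalEval a y = 0 ∧ P a y} := by
  intro m
  induction m with
  | zero =>
    intro G hG hm _
    have h1 : G = 1 := eq_one_of_monic_natDegree_zero hG hm
    refine Thin.of_finite ?_
    have : {a : K | ∃ y, G.evalEval a y = 0 ∧ P a y} = ∅ := by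
      ext a
      simp [h1, evalEval]
    rw [this]
    exact Set.finite_empty
  | succ m ih =>
    intro G hG hm hGO
    by_cases hr : ∃ h : K[X], G.eval h = 0
    · obtain ⟨h, hh⟩ := hr
      obtain ⟨G', hG'⟩ := dvd_iff_isRoot.2 hh
      have hGm : G'.Monic := (monic_X_sub_C h).of_mul_monic_left (by rw [← hG']; exact hG)
      have hdeg : G'.natDegree = m := by
        have h1 := (monic_X_sub_C h).natDegree_mul hGm
        rw [← hG', hm, natDegree_X_sub_C] at h1
        omega
      have hev : ∀ a y, G.evalEval a y = (y - h.eval a) * G'.evalEval a y := by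
        intro a y
        rw [hG', evalEval_mul]
        congr 1
        simp [evalEval]
      have h1 : {a | P a (h.eval a)}.Finite := by
        rcases hP h with h1 | h1
        · exact h1
        · exfalso
          refine not_cofinite hO _ h1 fun a ha => ?_
          have ha' : P a (h.eval a) := not_not.1 ha
          exact hGO a _ (by rw [hev, sub_self, zero_mul]) ha'
      have h2 := ih G' hGm hdeg fun a y hy hPy => hGO a y (by rw [hev, hy, mul_zero]) hPy
      refine ((Thin.of_finite h1).union h2).mono ?_
      rintro a ⟨y, hy, hPy⟩
      rw [hev] at hy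
      rcases mul_eq_zero.1 hy with h3 | h3
      · left
        have h4 : y = h.eval a := sub_eq_zero.1 h3
        show P a (h.eval a)
        rw [← h4]
        exact hPy
      · exact Or.inr ⟨y, h3, hPy⟩
    · push Not at hr
      exact ⟨∅, Set.finite_empty, G, hG, hr, fun t ht => by
        obtain ⟨y, hy, -⟩ := ht
        exact Or.inr ⟨y, hy⟩⟩

/-- the numerator of `f(a, h(a) / c(a))` -/
noncomputable def num (f : K[X][X]) (h c : K[X]) : K[X] :=
  ∑ j ∈ Finset.range (f.natDegree + 1), f.coeff j * h ^ j * c ^ (f.natDegree - j)

theorem eval_num (f : K[X][X]) (h c : K[X]) (a : K) (ha : c.eval a ≠ 0) :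
    (num f h c).eval a = c.eval a ^ f.natDegree * f.evalEval a (h.eval a / c.eval a) := by
  rw [← map_evalRingHom_eval, eval_map, eval₂_eq_sum_range, num, eval_finsetSum, Finset.mul_sum]
  refine Finset.sum_congr rfl fun j hj => ?_
  have hj' : j ≤ f.natDegree := Nat.lt_succ_iff.1 (Finset.mem_range.1 hj)
  rw [eval_mul, eval_mul, eval_pow, eval_pow, coe_evalRingHom, div_pow]
  have h1 : c.eval a ^ f.natDegree = c.eval a ^ (f.natDegree - j) * c.eval a ^ j := by
    rw [← pow_add, Nat.sub_add_cancel hj']
  rw [h1]
  field_simp

/-- **Formulas with one quantifier.** A Boolean combination of polynomial equations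
`f_i(a, w) = 0`; if the elements `a` for which there is a solution `w` are in a flat set, then they
form a thin set. -/
theorem thin_oneQ {O : Set K} (hO : Flat O) {s : ℕ} (f : Fin s → K[X][X])
    (B : (Fin s → Prop) → Prop)
    (h : ∀ a w, B (fun i => (f i).evalEval a w = 0) → a ∈ O) :
    Thin {a | ∃ w, B (fun i => (f i).evalEval a w = 0)} := by
  classical
  set F : K[X][X] := ∏ i ∈ Finset.univ.filter (fun i => f i ≠ 0), f i with hF
  have hF0 : F ≠ 0 := Finset.prod_ne_zero_iff.2 fun i hi => (Finset.mem_filter.1 hi).2
  have hvec : ∀ a w, F.evalEval a w ≠ 0 →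
      (fun i => (f i).evalEval a w = 0) = fun i => f i = 0 := by
    intro a w haw
    funext i
    refine propext ⟨fun hi => ?_, fun hi => by rw [hi]; simp [evalEval]⟩
    by_contra h0
    apply haw
    rw [hF, evalEval_prod]
    exact Finset.prod_eq_zero (Finset.mem_filter.2 ⟨Finset.mem_univ i, h0⟩) hi
  have hc0 : F.leadingCoeff ≠ 0 := leadingCoeff_ne_zero.2 hF0
  have hfinc : {a | F.leadingCoeff.eval a = 0}.Finite := by
    refine (F.leadingCoeff.roots.toFinset.finite_toSet).subset fun a ha => ?_
    rw [Finset.mem_coe, Multiset.mem_toFinset]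
    exact (mem_roots hc0).2 ha
  by_cases hτ : B (fun i => f i = 0)
  · exfalso
    refine not_cofinite hO _ hfinc fun a ha => ?_
    have h1 : F.map (evalRingHom a) ≠ 0 := by
      intro h0
      apply ha
      have := congrArg (fun p => p.coeff F.natDegree) h0
      simp only [coeff_map, coeff_zero, coe_evalRingHom] at this
      exact this
    obtain ⟨w, hw⟩ : ∃ w, (F.map (evalRingHom a)).eval w ≠ 0 := by
      by_contra hcon
      push Not at hcon
      exact h1 (Polynomial.funext fun w => by rw [hcon w, eval_zero])
    rw [map_evalRingHom_eval] at hw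
    refine h a w ?_
    rw [hvec a w hw]
    exact hτ
  · set c := F.leadingCoeff with hc
    let P : K → K → Prop := fun a y => c.eval a ≠ 0 ∧
      B (fun i => (f i).evalEval a (y / c.eval a) = 0)
    have hP : Tame P := by
      intro g
      set A : Set K := {a | c.eval a = 0} ∪
        ⋃ i : Fin s, {a | num (f i) g c ≠ 0 ∧ (num (f i) g c).eval a = 0} with hA
      have hAfin : A.Finite := by
        refine hfinc.union (Set.finite_iUnion fun i => ?_)
        by_cases h0 : num (f i) g c = 0
        · have : {a | num (f i) g c ≠ 0 ∧ (num (f i) g c).eval a = 0} = ∅ := by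
            ext a
            simp [h0]
          rw [this]
          exact Set.finite_empty
        · refine ((num (f i) g c).roots.toFinset.finite_toSet).subset fun a ha => ?_
          rw [Finset.mem_coe, Multiset.mem_toFinset]
          exact (mem_roots h0).2 ha.2
      have hconst : ∀ a, a ∉ A → ((fun i => (f i).evalEval a (g.eval a / c.eval a) = 0) =
          fun i => num (f i) g c = 0) := by
        intro a ha
        have hca : c.eval a ≠ 0 := fun h0 => ha (Or.inl h0)
        funext i
        have h1 := eval_num (f i) g c a hca
        refine propext ⟨fun hi => ?_, fun hi => ?_⟩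
        · by_contra h0
          apply ha
          right
          refine Set.mem_iUnion.2 ⟨i, h0, ?_⟩
          rw [h1, hi, mul_zero]
        · rw [hi, eval_zero] at h1
          exact (mul_eq_zero.1 h1.symm).resolve_left (pow_ne_zero _ hca)
      by_cases hB : B (fun i => num (f i) g c = 0)
      · right
        refine hAfin.subset fun a ha => ?_
        by_contra haA
        apply ha
        refine ⟨fun h0 => haA (Or.inl h0), ?_⟩
        rw [hconst a haA]
        exact hB
      · left
        refine hAfin.subset fun a ha => ?_
        by_contra haA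
        apply hB
        rw [← hconst a haA]
        exact ha.2
    by_cases hd : 1 ≤ F.natDegree
    · have hev : ∀ a w, (integralNormalization F).evalEval a (c.eval a * w) =
          c.eval a ^ (F.natDegree - 1) * F.evalEval a w := by
        intro a w
        have h1 := integralNormalization_eval₂_leadingCoeff_mul hd (evalRingHom a) w
        rw [eval₂_evalRingHom] at h1
        exact h1
      have hmain := thin_monic hO hP _ (integralNormalization F) (monic_integralNormalization hF0)
        rfl (fun a y _ hy => h a _ hy.2)
      refine ((Thin.of_finite hfinc).union hmain).mono ?_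
      rintro a ⟨w, hw⟩
      by_cases hca : c.eval a = 0
      · exact Or.inl hca
      · right
        have hFaw : F.evalEval a w = 0 := by
          by_contra h0
          apply hτ
          rw [← hvec a w h0]
          exact hw
        refine ⟨c.eval a * w, by rw [hev, hFaw, mul_zero], hca, ?_⟩
        rw [mul_div_cancel_left₀ _ hca]
        exact hw
    · have hd0 : F.natDegree = 0 := by omega
      refine (Thin.of_finite hfinc).mono ?_
      rintro a ⟨w, hw⟩
      by_contra hca
      have hca' : c.eval a ≠ 0 := hca
      apply hτ
      rw [← hvec a w ?_]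
      · exact hw
      · intro h0
        apply hca'
        rw [← map_evalRingHom_eval, eval_map, eval₂_eq_sum_range, hd0] at h0
        simpa [hc, leadingCoeff, hd0] using h0

end Pool.Agent.N455.PR
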