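import Pool.Agent.TH716.RK.HpNf
import Pool.Agent.N455.HT.Dg


/-!
# Thin sets and sequences which are equidistributed modulo all integers (helper455)

The steps of the proof of `Pool.Agent.TH716.RK.hp_nf` (helper716) and `Pool.Agent.H391R2.hp_rat`,
for the exceptional parameters themselves.
-/

set_option autoImplicit false

namespace Pool.Agent.N455.PR

open Polynomial Pool.Agent.TH716.RK Pool.Agent.H391R2

/-- From a number field to `ℚ`. -/
theorem nf_to_rat (K : Type) [Field K] [NumberField K] (f : K[X][X]) (hf : f.Monic)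
    (hroot : ∀ g : K[X], f.eval g ≠ 0) :
    ∃ H : ℚ[X][X], H.Monic ∧ (∀ g : ℚ[X], H.eval g ≠ 0) ∧ ∃ F : Set ℤ, F.Finite ∧
      ∀ (t : ℤ) (x : K), f.evalEval (t : K) x = 0 → t ∈ F ∨ ∃ y : ℚ, H.evalEval (t : ℚ) y = 0 := by
  classical
  let b := Module.finBasis ℚ K
  let n := Module.finrank ℚ K
  have hnd := traceForm_nondegenerate ℚ K
  let d := LinearMap.BilinForm.dualBasis (Algebra.traceForm ℚ K) hnd b
  have hd : ∀ x : K, ∑ i, algebraMap ℚ K (Algebra.trace ℚ K (d i * x)) * b i = x := by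
    intro x
    have h1 : ∀ i, Algebra.trace ℚ K (d i * x) = b.repr x i := by
      intro i
      have h2 : Algebra.trace ℚ K (d i * x) = Algebra.traceForm ℚ K (d i) x := rfl
      rw [h2]
      conv_lhs => rw [← b.sum_repr x]
      rw [map_sum]
      simp only [map_smul, smul_eq_mul]
      rw [Finset.sum_eq_single i]
      · rw [LinearMap.BilinForm.apply_dualBasis_left, if_pos rfl, mul_one]
      · intro j _ hj
        rw [LinearMap.BilinForm.apply_dualBasis_left, if_neg hj, mul_zero]
      · intro h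
        exact (h (Finset.mem_univ _)).elim
    simp only [h1]
    conv_rhs => rw [← b.sum_repr x]
    refine Finset.sum_congr rfl fun i _ => ?_
    rw [Algebra.smul_def]
  choose G hGm hG using fun i => exists_coord f hf (d i)
  choose H hH1 hH2 hH3 using fun i => exists_prod_multiset_X_sub_C_mul (G i)
  -- the product of the parts without roots
  have hHm : ∀ i, (H i).Monic := by
    intro i
    have h1 : (Multiset.map (fun a => X - C a) (G i).roots).prod.Monic :=
      monic_multiset_prod_of_monic _ _ fun a _ => monic_X_sub_C a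
    exact h1.of_mul_monic_left (by rw [hH1 i]; exact hGm i)
  have hm : (∏ i, H i).Monic := monic_prod_of_monic _ _ fun i _ => hHm i
  have hr : ∀ g : ℚ[X], (∏ i, H i).eval g ≠ 0 := by
    intro g
    rw [eval_prod]
    refine Finset.prod_ne_zero_iff.2 fun i _ h => ?_
    have : g ∈ (H i).roots := (mem_roots (hHm i).ne_zero).2 h
    rw [hH3 i] at this
    simp at this
  -- the candidates
  let cand : (∀ i : Fin n, {g // g ∈ (G i).roots.toFinset}) → K[X] := fun j =>
    ∑ i, (j i).1.map (algebraMap ℚ K) * C (b i)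
  have hfin : {t : ℤ | ∃ j, (f.eval (cand j)).eval (t : K) = 0}.Finite := by
    rw [Set.ofPred_exists]
    refine Set.finite_iUnion fun j => ?_
    have h1 : {a : K | (f.eval (cand j)).IsRoot a}.Finite := by
      have := (f.eval (cand j)).roots.toFinset.finite_toSet
      refine this.subset fun a ha => ?_
      rw [Finset.mem_coe, Multiset.mem_toFinset]
      exact (mem_roots (hroot _)).2 ha
    refine (h1.preimage (f := fun t : ℤ => (t : K)) (Set.injOn_of_injective
      Int.cast_injective)).subset fun t ht => ?_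
    exact ht
  refine ⟨∏ i, H i, hm, hr, _, hfin, fun t x hx => ?_⟩
  by_cases ht' : ∃ y : ℚ, (∏ i, H i).evalEval (t : ℚ) y = 0
  · exact Or.inr ht'
  left
  push Not at ht'
  have hex : ∀ i : Fin n, ∃ g : {g // g ∈ (G i).roots.toFinset},
      Algebra.trace ℚ K (d i * x) = g.1.eval (t : ℚ) := by
    intro i
    have h1 := hG i t x hx
    rw [← hH1 i, evalEval_mul] at h1
    have h2 : (H i).evalEval (t : ℚ) (Algebra.trace ℚ K (d i * x)) ≠ 0 := by
      intro h0
      apply ht' (Algebra.trace ℚ K (d i * x))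
      rw [evalEval_prod]
      exact Finset.prod_eq_zero (Finset.mem_univ i) h0
    have h3 := (mul_eq_zero.1 h1).resolve_right h2
    rw [← coe_evalEvalRingHom, map_multiset_prod, Multiset.map_map] at h3
    rw [Multiset.prod_eq_zero_iff, Multiset.mem_map] at h3
    obtain ⟨g, hg, hg'⟩ := h3
    refine ⟨⟨g, Multiset.mem_toFinset.2 hg⟩, ?_⟩
    simp only [Function.comp_apply, coe_evalEvalRingHom] at hg'
    have h4 : evalEval (t : ℚ) (Algebra.trace ℚ K (d i * x)) (X - C g) =
        Algebra.trace ℚ K (d i * x) - g.eval (t : ℚ) := by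
      simp [evalEval]
    rw [h4] at hg'
    exact sub_eq_zero.1 hg'
  choose j hj using hex
  have hxe : x = (cand j).eval (t : K) := by
    conv_lhs => rw [← hd x]
    simp only [cand, eval_finsetSum, eval_mul, eval_C]
    refine Finset.sum_congr rfl fun i _ => ?_
    rw [hj i]
    congr 1
    have : (t : K) = algebraMap ℚ K (t : ℚ) := by simp
    rw [this, eval_map, eval₂_at_apply]
  refine ⟨j, ?_⟩
  rw [hxe] at hx
  rw [← hx, evalEval]
  have : f.eval (cand j) = f.eval₂ (RingHom.id _) (cand j) := rfl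
  rw [← coe_evalRingHom (R := K)]
  rw [← eval₂_at_apply, ← eval₂_at_apply]
  simp

/-- From `ℚ` to `ℤ`. -/
theorem rat_to_int (f : ℚ[X][X]) (hf : f.Monic) (hroot : ∀ g : ℚ[X], f.eval g ≠ 0) :
    ∃ F : ℤ[X][X], F.Monic ∧ (∀ g : ℤ[X], F.eval g ≠ 0) ∧
      ∀ (t : ℤ) (x : ℚ), f.evalEval (t : ℚ) x = 0 → ∃ a : ℤ, (F.map (evalRingHom t)).eval a = 0 := by
  classical
  set φ : ℤ[X] →+* ℚ[X] := mapRingHom (Int.castRingHom ℚ) with hφ
  have hφinj : Function.Injective φ := map_injective _ Int.cast_injective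
  have hclear : ∀ i, ∃ c : ℤ, c ≠ 0 ∧ C (c : ℚ) * f.coeff i ∈ φ.range := by
    intro i
    obtain ⟨c, P, hc, hP⟩ := exists_clear (R := ℤ) (f.coeff i)
    refine ⟨c, hc, P, ?_⟩
    rw [hφ, coe_mapRingHom]
    simpa using hP
  choose c hc0 hc using hclear
  set δ : ℤ := ∏ i ∈ Finset.range (f.natDegree), c i with hδ
  have hδ0 : δ ≠ 0 := Finset.prod_ne_zero_iff.2 fun i _ => hc0 i
  have hδQ : (δ : ℚ) ≠ 0 := by exact_mod_cast hδ0
  have hCint : ∀ m : ℤ, C (m : ℚ) ∈ φ.range := fun m => ⟨C m, by simp [hφ]⟩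
  have hlift : scaleRoots f (C (δ : ℚ)) ∈ lifts φ := by
    rw [lifts_iff_coeff_lifts]
    intro i
    rw [coeff_scaleRoots]
    change _ ∈ φ.range
    rcases lt_trichotomy i f.natDegree with hi | hi | hi
    · have h1 : f.coeff i * C (δ : ℚ) ^ (f.natDegree - i) =
        (C ((∏ k ∈ (Finset.range f.natDegree).erase i, c k : ℤ) : ℚ)) * (C (c i : ℚ) * f.coeff i) *
          C (δ : ℚ) ^ (f.natDegree - i - 1) := by
        have h2 : (δ : ℚ) = ((∏ k ∈ (Finset.range f.natDegree).erase i, c k : ℤ) : ℚ) * c i := by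
          rw [hδ, ← Finset.prod_erase_mul _ _ (Finset.mem_range.2 hi)]
          push_cast; rfl
        have h3 : C (δ : ℚ) ^ (f.natDegree - i) =
            C (δ : ℚ) * C (δ : ℚ) ^ (f.natDegree - i - 1) := by
          rw [← pow_succ']; congr 1; omega
        have h4 : C (δ : ℚ) = C ((∏ k ∈ (Finset.range f.natDegree).erase i, c k : ℤ) : ℚ) *
            C (c i : ℚ) := by rw [← C_mul, ← h2]
        rw [h3]
        nth_rewrite 1 [h4]
        ring
      rw [h1]
      exact φ.range.mul_mem (φ.range.mul_mem (hCint _) (hc i)) (φ.range.pow_mem (hCint δ) _)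
    · rw [hi, hf.coeff_natDegree, Nat.sub_self, pow_zero, mul_one]
      exact φ.range.one_mem
    · rw [coeff_eq_zero_of_natDegree_lt hi, zero_mul]
      exact φ.range.zero_mem
  obtain ⟨F, hF, -, hFm⟩ := lifts_and_natDegree_eq_and_monic hlift
    ((monic_scaleRoots_iff _).2 hf)
  have hFroot : ∀ g : ℤ[X], F.eval g ≠ 0 := by
    intro g hg
    apply hroot (C (δ : ℚ)⁻¹ * φ g)
    have h1 : (scaleRoots f (C (δ : ℚ))).eval (φ g) = 0 := by
      rw [← hF, eval_map_apply, hg, map_zero]
    have h2 : φ g = C (δ : ℚ) * (C (δ : ℚ)⁻¹ * φ g) := by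
      rw [← mul_assoc, ← C_mul, mul_inv_cancel₀ hδQ, C_1, one_mul]
    rw [h2, scaleRoots_eval_mul] at h1
    have h3 : (C (δ : ℚ)) ^ f.natDegree ≠ 0 := pow_ne_zero _ (C_ne_zero.2 hδQ)
    exact (mul_eq_zero.1 h1).resolve_left h3
  refine ⟨F, hFm, hFroot, fun t x hx => ?_⟩
  -- `δ x` is an integer root of `F(t, X)`
  have h1 : ((F.map (evalRingHom t)).map (Int.castRingHom ℚ)).eval ((δ : ℚ) * x) = 0 := by
    have h2 : (F.map (evalRingHom t)).map (Int.castRingHom ℚ) =
        (scaleRoots f (C (δ : ℚ))).map (evalRingHom (t : ℚ)) := by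
      rw [← hF, Polynomial.map_map, Polynomial.map_map]
      congr 1
      ext q
      · simp [hφ]
      · simp [hφ]
    rw [h2, eval_map]
    have h3 := scaleRoots_eval₂_mul (p := f) (evalRingHom (t : ℚ)) x (C (δ : ℚ))
    rw [coe_evalRingHom, eval_C] at h3
    rw [h3, eval₂_evalRingHom, hx, mul_zero]
  have h4 : IsIntegral ℤ ((δ : ℚ) * x) := by
    refine ⟨F.map (evalRingHom t), hFm.map _, ?_⟩
    rw [← eval_map]
    exact h1
  obtain ⟨y, hy⟩ := IsIntegrallyClosed.isIntegral_iff.1 h4
  refine ⟨y, ?_⟩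
  rw [← hy] at h1
  have h5 : (Int.castRingHom ℚ) y = algebraMap ℤ ℚ y := rfl
  rw [← h5, eval_map_apply] at h1
  simpa using h1

end Pool.Agent.N455.PR
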